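import Mathlib
import Pool.Agent.Lib.MP_4652a8_nt.GMain

/-!
The two-set Graham gcd inequality (Granville-Roesler) for all pairs of sets of large size.
-/

set_option autoImplicit false

namespace Pool.Agent.Results.MP_4652a8_nt.LargeN

/-- There is `N0` such that for all finite sets `A`, `B` of positive integers with
`min |A| |B| ≥ N0` some `a ∈ A`, `b ∈ B` have `max (a / gcd a b) (b / gcd a b) ≥ min |A| |B|`. -/
theorem result :
    ∃ N0 : ℕ, ∀ A B : Finset ℕ, (∀ a ∈ A, 0 < a) → (∀ b ∈ B, 0 < b) →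
      N0 ≤ min A.card B.card →
      ∃ a ∈ A, ∃ b ∈ B,
        min A.card B.card ≤ max (a / Nat.gcd a b) (b / Nat.gcd a b) :=
  Pool.Agent.Lib.MP_4652a8_nt.main_nat

end Pool.Agent.Results.MP_4652a8_nt.LargeN
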